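import Mathlib

/-!
# Fine normal ultrafilters over `P_κ(κ⁺)` and the Galvin property

Let `κ < lam` be infinite cardinals, `lam` regular, `X` a set of cardinality `lam` and `U` a fine normal
ultrafilter over `P_κ(X)`. If `2 ^ μ ≤ lam` for all `μ < lam` (for `lam = κ⁺` this says `2 ^ κ = κ⁺`), then
`Gal(U, κ, 2 ^ lam)` fails: there are `2 ^ lam` distinct sets in `U` no `κ` of which have their
intersection in `U`. Without a hypothesis on cardinal arithmetic the same holds for `|W|` instead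
of `2 ^ lam`, if `W` is a family of subsets of `lam` with at most `lam` traces on each `α < lam`.

The sets are as follows. Let `e ξ` (for `ξ` in `X`) enumerate all the sets `S ∩ α` with `S ∈ W` and `α` in
`X`. For `S ∈ W` let `A S` be the set of all `x` such that for every `α ∈ x` there is `ξ ∈ x` with
`S ∩ α = e ξ`. By normality and fineness `A S ∈ U`. If `I ⊆ W` has `κ` elements, then there is `δ` such that
the sets `S ∩ δ`, for `S ∈ I`, are distinct; so `x ∈ A S` for all `S ∈ I` and `δ ∈ x` would give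
`κ` distinct elements `ξ` of `x`, although `|x| < κ`.
-/

set_option autoImplicit false

open Cardinal Set

namespace Pool.Agent.Results.MP_a3089e_lc.NoFineNormalGalvin

universe u

/-- `P_κ(X)`: the subsets of `X` of cardinality less than `κ` -/
abbrev PK (κ : Cardinal.{u}) (X : Type u) : Type u := {x : Set X // #x < κ}

/-- `Gal(U, μ, θ)`: among any `θ` distinct sets in `U` there are `μ` whose intersection is in `U`. -/
def Gal {α : Type u} (U : Ultrafilter α) (μ θ : Cardinal.{u}) : Prop :=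
  ∀ S : Set (Set α), (∀ s ∈ S, s ∈ U) → #S = θ → ∃ T ⊆ S, #T = μ ∧ ⋂₀ T ∈ U

/-- `U` is a fine normal ultrafilter over `P_κ(X)`: it is `κ`-complete, it is fine, and every `f` with
`f x ∈ x` for almost all `x` is constant on a set in `U`. -/
structure FineNormal {κ : Cardinal.{u}} {X : Type u} (U : Ultrafilter (PK κ X)) : Prop where
  complete : ∀ S : Set (Set (PK κ X)), #S < κ → (∀ s ∈ S, s ∈ U) → ⋂₀ S ∈ U
  fine : ∀ a : X, {x : PK κ X | a ∈ x.1} ∈ U
  normal : ∀ f : PK κ X → X, {x : PK κ X | f x ∈ x.1} ∈ U → ∃ a : X, {x : PK κ X | f x = a} ∈ U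

section

variable {κ lam : Cardinal.{u}} {X : Type u} {U : Ultrafilter (PK κ X)}

/-- the set of the `x` closed under a function is in `U` -/
theorem closed_mem (hU : FineNormal U) (f : X → X) : {x : PK κ X | ∀ a ∈ x.1, f a ∈ x.1} ∈ U := by
  classical
  by_contra h
  rw [← Ultrafilter.compl_mem_iff_notMem] at h
  have hX : Nonempty X := by
    obtain ⟨x, hx⟩ := U.nonempty_of_mem h
    simp only [mem_compl_iff, mem_ofPred_eq, not_forall] at hx
    exact ⟨hx.choose⟩
  let g : PK κ X → X := fun x => if h : ∃ a ∈ x.1, f a ∉ x.1 then h.choose else Classical.arbitrary X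
  have hg : ∀ x : PK κ X, x ∈ {x : PK κ X | ∀ a ∈ x.1, f a ∈ x.1}ᶜ → g x ∈ x.1 ∧ f (g x) ∉ x.1 := by
    intro x hx
    simp only [mem_compl_iff, mem_ofPred_eq, not_forall] at hx
    have hx' : ∃ a ∈ x.1, f a ∉ x.1 := by
      obtain ⟨a, h1, h2⟩ := hx
      exact ⟨a, h1, h2⟩
    have : g x = hx'.choose := dif_pos hx'
    rw [this]
    exact hx'.choose_spec
  obtain ⟨a, ha⟩ := hU.normal g (Filter.mem_of_superset h fun x hx => (hg x hx).1)
  obtain ⟨x, ⟨h1, h2⟩, h3⟩ := U.nonempty_of_mem (Filter.inter_mem (Filter.inter_mem h ha) (hU.fine (f a)))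
  have h4 := (hg x h1).2
  rw [show g x = a from h2] at h4
  exact h4 h3

/-- the set attached to `S ⊆ X` -/
def A [LinearOrder X] (κ : Cardinal.{u}) (e : X → Set X) (S : Set X) : Set (PK κ X) :=
  {x | ∀ a ∈ x.1, ∃ ξ ∈ x.1, e ξ = S ∩ Iio a}

theorem A_mem [LinearOrder X] (hU : FineNormal U) (e : X → Set X) (S : Set X)
    (he : ∀ a : X, ∃ ξ, e ξ = S ∩ Iio a) : A κ e S ∈ U := by
  choose f hf using he
  refine Filter.mem_of_superset (closed_mem hU f) fun x hx a ha => ⟨f a, hx a ha, hf a⟩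

/-- `κ` many sets have different traces on an initial segment -/
theorem exists_delta [LinearOrder X] (hκ : ℵ₀ ≤ κ)
    (hb : ∀ D : Set X, #D ≤ κ → ∃ δ, ∀ d ∈ D, d < δ) (I : Set (Set X)) (hI : #I ≤ κ) :
    ∃ δ : X, ∀ S ∈ I, ∀ T ∈ I, S ∩ Iio δ = T ∩ Iio δ → S = T := by
  classical
  have h1 : ∀ p : I × I, ∃ D : Set X, #D ≤ 1 ∧ ((p.1 : Set X) ≠ p.2 →
      ∃ d ∈ D, ¬ (d ∈ (p.1 : Set X) ↔ d ∈ (p.2 : Set X))) := by
    intro p
    by_cases h : (p.1 : Set X) = p.2
    · exact ⟨∅, by simp, fun h' => absurd h h'⟩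
    · have h2 : ∃ d, ¬ (d ∈ (p.1 : Set X) ↔ d ∈ (p.2 : Set X)) := by
        by_contra hcon
        push Not at hcon
        exact h (Set.ext hcon)
      obtain ⟨d, hd⟩ := h2
      exact ⟨{d}, by simp, fun _ => ⟨d, rfl, hd⟩⟩
  choose D hD1 hD2 using h1
  obtain ⟨δ, hδ⟩ := hb (⋃ p, D p) (by
    refine (Cardinal.mk_iUnion_le _).trans ?_
    have h3 : #(I × I) ≤ κ := by
      rw [Cardinal.mk_prod, Cardinal.lift_id]
      exact (mul_le_mul' hI hI).trans (Cardinal.mul_eq_self hκ).le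
    have h4 : (⨆ p, #(D p)) ≤ 1 := ciSup_le' hD1
    calc #(I × I) * ⨆ p, #(D p) ≤ κ * 1 := mul_le_mul' h3 h4
      _ = κ := mul_one _)
  refine ⟨δ, fun S hS T hT h => ?_⟩
  by_contra hne
  obtain ⟨d, hd, hd2⟩ := hD2 (⟨S, hS⟩, ⟨T, hT⟩) hne
  apply hd2
  have h5 : d < δ := hδ d (mem_iUnion.2 ⟨_, hd⟩)
  have h6 : d ∈ S ∩ Iio δ ↔ d ∈ T ∩ Iio δ := by rw [h]
  simpa [h5] using h6

theorem compl_mem [LinearOrder X] (hU : FineNormal U) (hκ : ℵ₀ ≤ κ) (e : X → Set X)
    (hb : ∀ D : Set X, #D ≤ κ → ∃ δ, ∀ d ∈ D, d < δ) (I : Set (Set X)) (hI : #I = κ) :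
    (⋂ S ∈ I, A κ e S)ᶜ ∈ U := by
  obtain ⟨δ, hδ⟩ := exists_delta hκ hb I hI.le
  refine Filter.mem_of_superset (hU.fine δ) fun x hx hx2 => ?_
  simp only [mem_iInter] at hx2
  choose ξ h1 h2 using fun S : I => hx2 S.1 S.2 δ hx
  have hinj : Function.Injective (fun S : I => (⟨ξ S, h1 S⟩ : x.1)) := by
    intro S T hST
    have h3 : ξ S = ξ T := congrArg Subtype.val hST
    apply Subtype.ext
    apply hδ S.1 S.2 T.1 T.2
    rw [← h2 S, ← h2 T, h3]
  have h4 := Cardinal.mk_le_of_injective hinj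
  rw [hI] at h4
  exact absurd x.2 (not_lt.2 h4)

/-- the main theorem, with an enumeration `e` of the traces of the members of the family `W` -/
theorem core [LinearOrder X] (hU : FineNormal U) (hκ : ℵ₀ ≤ κ) (W : Set (Set X)) (hW : κ < #W)
    (e : X → Set X) (he : ∀ S ∈ W, ∀ a : X, ∃ ξ, e ξ = S ∩ Iio a)
    (hb : ∀ D : Set X, #D ≤ κ → ∃ δ, ∀ d ∈ D, d < δ) :
    ∃ F : Set (Set (PK κ X)), #F = #W ∧ (∀ s ∈ F, s ∈ U) ∧
      ∀ T ⊆ F, #T = κ → (⋂₀ T)ᶜ ∈ U := by
  classical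
  have hfib : ∀ s : Set (PK κ X), s ∈ U → #{S : W | A κ e S.1 = s} < κ := by
    intro s hs
    by_contra hcon
    rw [not_lt] at hcon
    obtain ⟨I, hI1, hI2⟩ := Cardinal.le_mk_iff_exists_subset.1 hcon
    have hI3 : #(Subtype.val '' I : Set (Set X)) = κ := by
      rw [Cardinal.mk_image_eq Subtype.val_injective, hI2]
    have h1 := compl_mem hU hκ e hb _ hI3
    have h2 : s ⊆ ⋂ S ∈ (Subtype.val '' I : Set (Set X)), A κ e S := by
      intro x hx
      simp only [mem_iInter]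
      rintro _ ⟨S, hS, rfl⟩
      have : A κ e S.1 = s := hI1 hS
      rw [this]; exact hx
    obtain ⟨x, hx1, hx2⟩ := U.nonempty_of_mem (Filter.inter_mem hs h1)
    exact hx2 (h2 hx1)
  refine ⟨range (fun S : W => A κ e S.1), ?_, ?_, ?_⟩
  · apply le_antisymm
    · exact Cardinal.mk_range_le
    · by_contra hcon
      rw [not_le] at hcon
      have h1 : #W ≤ #(range (fun S : W => A κ e S.1)) * κ := by
        have h2 : #W = Cardinal.sum fun s : range (fun S : W => A κ e S.1) =>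
            #{S : W | A κ e S.1 = s.1} := by
          rw [← Cardinal.mk_sigma]
          refine Cardinal.mk_congr ?_
          refine ⟨fun S => ⟨⟨A κ e S.1, mem_range_self S⟩, ⟨S, rfl⟩⟩, fun p => p.2.1, fun S => rfl, ?_⟩
          rintro ⟨⟨s, hs⟩, ⟨S, hS⟩⟩
          have hS' : A κ e S.1 = s := hS
          subst hS'
          rfl
        rw [h2]
        refine (Cardinal.sum_le_mk_mul_iSup _).trans ?_
        gcongr
        refine ciSup_le' fun s => ?_
        obtain ⟨S, hS⟩ := s.2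
        exact (hfib s.1 (hS ▸ A_mem hU e S.1 (he S.1 S.2))).le
      have h4 : #(range (fun S : W => A κ e S.1)) * κ < #W :=
        Cardinal.mul_lt_of_lt (hκ.trans hW.le) hcon hW
      exact absurd h1 (not_le.2 h4)
  · rintro s ⟨S, rfl⟩
    exact A_mem hU e S.1 (he S.1 S.2)
  · intro T hT hTκ
    choose g hg using fun t : T => hT t.2
    have hinj : Function.Injective (fun t : T => (g t).1) := by
      intro s t h
      apply Subtype.ext
      rw [← hg s, ← hg t, Subtype.ext h]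
    have h1 : #(range (fun t : T => (g t).1)) = κ := by rw [Cardinal.mk_range_eq _ hinj, hTκ]
    refine Filter.mem_of_superset (compl_mem hU hκ e hb _ h1) ?_
    rw [compl_subset_compl]
    intro x hx
    simp only [mem_iInter]
    rintro S ⟨t, rfl⟩
    have h2 := hx t.1 t.2
    rw [← hg t] at h2
    exact h2

end

/-- **Theorem.** Let `κ` be an infinite cardinal, `lam > κ` a regular cardinal and `U` a fine normal
ultrafilter over `P_κ(X)`, where `X` has cardinality `lam`.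

(1) Let `<` be a well-order of `X` in type `lam` and let `W` be a family of more than `κ` subsets
of `X` which have at most `lam` traces `S ∩ a` on each initial segment `a`. Then there are `|W|` distinct
sets in `U` such that the intersection of any `κ` of them has its complement in `U`; in
particular `Gal(U, κ, |W|)` fails.

(2) If `2 ^ μ ≤ lam` for all `μ < lam` (for `lam = κ⁺` this says `2 ^ κ = κ⁺`), then there are `2 ^ lam` such
sets and `Gal(U, κ, 2 ^ lam)` fails. -/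
theorem result (κ lam : Cardinal.{u}) (X : Type u) (hκ : ℵ₀ ≤ κ) (hlt : κ < lam) (hreg : lam.IsRegular)
    (hX : #X = lam) (U : Ultrafilter (PK κ X)) (hU : FineNormal U) :
    (∀ (_ : LinearOrder X) (_ : WellFoundedLT X), Ordinal.type (α := X) (· < ·) = lam.ord →
      ∀ W : Set (Set X), κ < #W → (∀ a : X, #{t : Set X | ∃ S ∈ W, t = S ∩ Iio a} ≤ lam) →
      ¬ Gal U κ #W ∧
        ∃ F : Set (Set (PK κ X)), #F = #W ∧ (∀ s ∈ F, s ∈ U) ∧ ∀ T ⊆ F, #T = κ → (⋂₀ T)ᶜ ∈ U) ∧
    ((∀ μ < lam, (2 : Cardinal.{u}) ^ μ ≤ lam) →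
      ¬ Gal U κ (2 ^ lam) ∧
        ∃ F : Set (Set (PK κ X)), #F = 2 ^ lam ∧ (∀ s ∈ F, s ∈ U) ∧
          ∀ T ⊆ F, #T = κ → (⋂₀ T)ᶜ ∈ U) := by
  classical
  have hgal : ∀ θ : Cardinal.{u}, (∃ F : Set (Set (PK κ X)), #F = θ ∧ (∀ s ∈ F, s ∈ U) ∧
      ∀ T ⊆ F, #T = κ → (⋂₀ T)ᶜ ∈ U) → ¬ Gal U κ θ := by
    rintro θ ⟨F, hF1, hF2, hF3⟩ hG
    obtain ⟨T, hT1, hT2, hT3⟩ := hG F hF2 hF1
    obtain ⟨x, hx1, hx2⟩ := U.nonempty_of_mem (Filter.inter_mem hT3 (hF3 T hT1 hT2))
    exact hx2 hx1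
  have hneX : Nonempty X := by
    rw [← Cardinal.mk_ne_zero_iff, hX]
    exact (Cardinal.aleph0_pos.trans_le hreg.aleph0_le).ne'
  have main : ∀ (_ : LinearOrder X) (_ : WellFoundedLT X), Ordinal.type (α := X) (· < ·) = lam.ord →
      ∀ W : Set (Set X), κ < #W → (∀ a : X, #{t : Set X | ∃ S ∈ W, t = S ∩ Iio a} ≤ lam) →
        ∃ F : Set (Set (PK κ X)), #F = #W ∧ (∀ s ∈ F, s ∈ U) ∧
          ∀ T ⊆ F, #T = κ → (⋂₀ T)ᶜ ∈ U := by
    intro _ _ ht W hW hth
    have hb : ∀ D : Set X, #D ≤ κ → ∃ δ, ∀ d ∈ D, d < δ := by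
      intro D hD
      have h1 : ¬ IsCofinal D := by
        intro h
        have h2 := Order.cof_le h
        rw [← Ordinal.cof_type, ht, hreg.cof_ord] at h2
        exact absurd (h2.trans hD) (not_le.2 hlt)
      simp only [IsCofinal, not_forall, not_exists, not_and, not_le] at h1
      exact h1
    have hcount : #{t : Set X | ∃ a : X, ∃ S ∈ W, t = S ∩ Iio a} ≤ #X := by
      have h1 : {t : Set X | ∃ a : X, ∃ S ∈ W, t = S ∩ Iio a} =
          ⋃ a : X, {t : Set X | ∃ S ∈ W, t = S ∩ Iio a} := by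
        ext t; simp
      rw [h1]
      refine (Cardinal.mk_iUnion_le _).trans ?_
      have h2 : (⨆ a : X, #{t : Set X | ∃ S ∈ W, t = S ∩ Iio a}) ≤ lam := ciSup_le' hth
      calc #X * ⨆ a : X, #{t : Set X | ∃ S ∈ W, t = S ∩ Iio a} ≤ lam * lam := by rw [hX]; gcongr
        _ = lam := Cardinal.mul_eq_self hreg.aleph0_le
        _ = #X := hX.symm
    have hneW : W.Nonempty := by
      rw [Set.nonempty_iff_ne_empty]
      rintro rfl
      simp at hW
    obtain ⟨S0, hS0⟩ := hneW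
    have hne : Nonempty {t : Set X | ∃ a : X, ∃ S ∈ W, t = S ∩ Iio a} :=
      ⟨⟨_, Classical.arbitrary X, S0, hS0, rfl⟩⟩
    obtain ⟨g⟩ : Nonempty ({t : Set X | ∃ a : X, ∃ S ∈ W, t = S ∩ Iio a} ↪ X) := hcount
    let e : X → Set X := fun ξ => (Function.invFun g ξ).1
    have he : ∀ S ∈ W, ∀ a : X, ∃ ξ, e ξ = S ∩ Iio a := by
      intro S hS a
      refine ⟨g ⟨S ∩ Iio a, a, S, hS, rfl⟩, ?_⟩
      show (Function.invFun g (g ⟨S ∩ Iio a, a, S, hS, rfl⟩)).1 = S ∩ Iio a
      rw [Function.leftInverse_invFun g.injective]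
    exact core hU hκ W hW e he hb
  refine ⟨fun i1 i2 ht W hW hth => ?_, fun hpow => ?_⟩
  · have h := main i1 i2 ht W hW hth
    exact ⟨hgal _ h, h⟩
  · -- a well-order of `X` of type `lam`
    obtain ⟨φ⟩ : Nonempty (X ≃ lam.ord.ToType) := Cardinal.eq.1 (by rw [hX, Cardinal.mk_ord_toType])
    let i1 : LinearOrder X := LinearOrder.lift' φ φ.injective
    have i2 : WellFoundedLT X := ⟨InvImage.wf φ (wellFounded_lt (α := lam.ord.ToType))⟩
    let ψ : X ≃o lam.ord.ToType := ⟨φ, Iff.rfl⟩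
    have ht : Ordinal.type (α := X) (· < ·) = lam.ord := by
      have h1 : Ordinal.type (α := X) (· < ·) = Ordinal.type (α := lam.ord.ToType) (· < ·) :=
        Ordinal.type_eq.2 ⟨ψ.toRelIsoLT⟩
      rw [h1, Ordinal.type_toType]
    have h := main i1 i2 ht univ (by
      rw [Cardinal.mk_univ, Cardinal.mk_set, hX]
      exact hlt.trans (Cardinal.cantor _)) (fun a => by
      have h1 : {t : Set X | ∃ S ∈ (univ : Set (Set X)), t = S ∩ Iio a} ⊆ 𝒫 (Iio a) := by
        rintro t ⟨S, _, rfl⟩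
        exact inter_subset_right
      refine (Cardinal.mk_le_mk_of_subset h1).trans ?_
      rw [Cardinal.mk_powerset]
      refine hpow _ ?_
      exact (Cardinal.mk_Iio_lt a (by rw [hX, ht])).trans_eq hX)
    rw [Cardinal.mk_univ, Cardinal.mk_set, hX] at h
    exact ⟨hgal _ h, h⟩

end Pool.Agent.Results.MP_a3089e_lc.NoFineNormalGalvin
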